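import Pool.Agent.H898P.StepI

/-!
# Local pure infiniteness of crossed products with finite Rokhlin dimension

`A` is a unital purely infinite C*-algebra (Kirchberg–Rørdam), `α` an automorphism of `A` of finite
Rokhlin dimension, `B = C*(Z, A, α)`, not assumed simple.  For every closed ideal `K` of `B` and
every positive `b` in `B` outside `K` there is a closed ideal `J` of `B`, not contained in `K`, all of
whose positive elements are Cuntz below `b`.
-/

set_option autoImplicit false

noncomputable section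

namespace Pool.Agent.Results.MP_9b5ea5_an.ResidualLocal

/-- Cuntz subequivalence `a ≾ b`. -/
def CuntzLE {A : Type} [CStarAlgebra A] (a b : A) : Prop :=
  ∀ ε : ℝ, 0 < ε → ∃ x : A, ‖x * b * star x - a‖ < ε

/-- `a` lies in the closed two-sided ideal generated by `b`. -/
def InClosedIdeal {A : Type} [CStarAlgebra A] (a b : A) : Prop :=
  ∀ I : TwoSidedIdeal A, IsClosed (I : Set A) → b ∈ I → a ∈ I

/-- `A` is purely infinite in the sense of Kirchberg and Rørdam: no nonzero abelian quotient, and
`a ≾ b` for all positive `a`, `b` such that `a` lies in the closed ideal generated by `b`. -/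
def PurelyInfinite (A : Type) [CStarAlgebra A] : Prop :=
  (∀ I : TwoSidedIdeal A, IsClosed (I : Set A) → (∀ x y : A, x * y - y * x ∈ I) → I = ⊤) ∧
  ∀ a b : A, (∃ y, a = star y * y) → (∃ y, b = star y * y) → InClosedIdeal a b → CuntzLE a b

/-- Conditions (ii), (iii), (iv) and the first half of (i) in the definition of finite Rokhlin
dimension.  Neither the wrap-around condition nor commuting towers are asked for, so this holds for
every automorphism of finite Rokhlin dimension with commuting towers. -/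
def FiniteRokhlin {A : Type} [CStarAlgebra A] (α : A ≃⋆ₐ[ℂ] A) : Prop :=
  ∃ d : ℕ, ∀ (F : Finset A) (ε : ℝ), 0 < ε → ∀ p : ℕ, 0 < p → ∃ f : Fin (d + 1) → ℕ → ℕ → A,
    (∀ l, ∀ q < 2, ∀ j < p + q, (∃ g : A, f l q j = star g * g) ∧ ‖f l q j‖ ≤ 1) ∧
    (∀ l, ∀ q < 2, ∀ j, j + 1 < p + q → ‖α (f l q j) - f l q (j + 1)‖ < ε) ∧
    (∀ l, ∀ q < 2, ∀ q' < 2, ∀ j < p + q, ∀ j' < p + q', (q, j) ≠ (q', j') →
      ‖f l q j * f l q' j'‖ < ε) ∧
    ‖∑ l, ∑ q ∈ Finset.range 2, ∑ j ∈ Finset.range (p + q), f l q j - 1‖ < ε ∧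
    (∀ l, ∀ q < 2, ∀ j < p + q, ∀ a ∈ F, ‖f l q j * a - a * f l q j‖ < ε)

/-- `B` with `ι : A → B` and `u` is the crossed product `C*(Z, A, α)`: `ι` is injective, `u` is a
unitary implementing `α`, they generate `B`, and `B` carries the gauge action (gauge-invariant
uniqueness theorem). -/
structure IsCrossedProduct {A B : Type} [CStarAlgebra A] [CStarAlgebra B] (α : A ≃⋆ₐ[ℂ] A)
    (ι : A →⋆ₐ[ℂ] B) (u : B) : Prop where
  injective : Function.Injective ι
  unitary : u ∈ unitary B
  covariant : ∀ a : A, u * ι a * star u = ι (α a)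
  generates : (StarAlgebra.adjoin ℂ (Set.range (ι : A → B) ∪ {u})).topologicalClosure = ⊤
  gauge : ∀ z : ℂ, ‖z‖ = 1 → ∃ γ : B →⋆ₐ[ℂ] B, (∀ a : A, γ (ι a) = ι a) ∧ γ u = z • u

/-- If `A` is purely infinite and `α` has finite Rokhlin dimension, then for every closed ideal `K`
of `B = C*(Z, A, α)` and every positive `b` in `B` outside `K` there is a closed ideal `J` of `B`, not
contained in `K`, such that every positive `c` in `J` satisfies `c ≾ b`. -/
theorem result :
    ∀ (A : Type) [CStarAlgebra A] (α : A ≃⋆ₐ[ℂ] A), PurelyInfinite A → FiniteRokhlin α →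
      ∀ (B : Type) [CStarAlgebra B] (ι : A →⋆ₐ[ℂ] B) (u : B), IsCrossedProduct α ι u →
        ∀ K : TwoSidedIdeal B, IsClosed (K : Set B) →
          ∀ b : B, (∃ y, b = star y * y) → b ∉ K →
            ∃ J : TwoSidedIdeal B, IsClosed (J : Set B) ∧ ¬ J ≤ K ∧
              ∀ c : B, (∃ y, c = star y * y) → c ∈ J → CuntzLE c b := by
  intro A _ α hA hα B _ ι u hB K hK b hb hbK
  exact Pool.Agent.H898P.residual hA ι ⟨u, hB.unitary⟩ α hB.covariant hα hB.generates hB.gauge b
    hb K hK hbK

end Pool.Agent.Results.MP_9b5ea5_an.ResidualLocal
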