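import Pool.Agent.H898P.StepI

/-!
# Crossed products with totally ordered ideals: pure infiniteness under finite Rokhlin dimension

`A` is a unital purely infinite C*-algebra (Kirchberg–Rørdam, `A` not assumed simple), `α` an
automorphism of `A` of finite Rokhlin dimension.  If the closed ideals of the crossed product
`B = C*(Z, A, α)` are totally ordered by inclusion (for example if `B` is simple), then `B` is
purely infinite.

Idea: let `K` be a closed ideal of `B` and `b` a positive element outside `K`.  A representation of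
`B` which kills `K` but not `b` (separation and GNS) and the gauge action bound the zeroth Fourier
coefficient of `b` from below modulo `K`; a single tower element then compresses `b` to an element
of `A` up to a small error.  In `A` there are square-zero elements `x` outside `K`, `x*x` is properly
infinite, and so `b` dominates all positive elements of the ideal `J` generated by `x`, which is not
contained in `K`.  If the ideals are totally ordered, the ideals `J` dominated by `b` fill the ideal
generated by `b`.
-/

set_option autoImplicit false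

noncomputable section

namespace Pool.Agent.Results.MP_9b5ea5_an.TotallyOrderedIdeals

/-- Cuntz subequivalence `a ≾ b`. -/
def CuntzLE {A : Type} [CStarAlgebra A] (a b : A) : Prop :=
  ∀ ε : ℝ, 0 < ε → ∃ x : A, ‖x * b * star x - a‖ < ε

/-- `a` lies in the closed two-sided ideal generated by `b`. -/
def InClosedIdeal {A : Type} [CStarAlgebra A] (a b : A) : Prop :=
  ∀ I : TwoSidedIdeal A, IsClosed (I : Set A) → b ∈ I → a ∈ I

/-- `A` is purely infinite in the sense of Kirchberg and Rørdam: no nonzero abelian quotient, and
`a ≾ b` for all positive `a`, `b` such that `a` lies in the closed ideal generated by `b`. -/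
def PurelyInfinite (A : Type) [CStarAlgebra A] : Prop :=
  (∀ I : TwoSidedIdeal A, IsClosed (I : Set A) → (∀ x y : A, x * y - y * x ∈ I) → I = ⊤) ∧
  ∀ a b : A, (∃ y, a = star y * y) → (∃ y, b = star y * y) → InClosedIdeal a b → CuntzLE a b

/-- Conditions (ii), (iii), (iv) and the first half of (i) in the definition of finite Rokhlin
dimension.  Neither the wrap-around condition nor commuting towers are asked for, so this holds for
every automorphism of finite Rokhlin dimension with commuting towers. -/
def FiniteRokhlin {A : Type} [CStarAlgebra A] (α : A ≃⋆ₐ[ℂ] A) : Prop :=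
  ∃ d : ℕ, ∀ (F : Finset A) (ε : ℝ), 0 < ε → ∀ p : ℕ, 0 < p → ∃ f : Fin (d + 1) → ℕ → ℕ → A,
    (∀ l, ∀ q < 2, ∀ j < p + q, (∃ g : A, f l q j = star g * g) ∧ ‖f l q j‖ ≤ 1) ∧
    (∀ l, ∀ q < 2, ∀ j, j + 1 < p + q → ‖α (f l q j) - f l q (j + 1)‖ < ε) ∧
    (∀ l, ∀ q < 2, ∀ q' < 2, ∀ j < p + q, ∀ j' < p + q', (q, j) ≠ (q', j') →
      ‖f l q j * f l q' j'‖ < ε) ∧
    ‖∑ l, ∑ q ∈ Finset.range 2, ∑ j ∈ Finset.range (p + q), f l q j - 1‖ < ε ∧
    (∀ l, ∀ q < 2, ∀ j < p + q, ∀ a ∈ F, ‖f l q j * a - a * f l q j‖ < ε)

/-- `B` with `ι : A → B` and `u` is the crossed product `C*(Z, A, α)`: `ι` is injective, `u` is a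
unitary implementing `α`, they generate `B`, and `B` carries the gauge action (gauge-invariant
uniqueness theorem). -/
structure IsCrossedProduct {A B : Type} [CStarAlgebra A] [CStarAlgebra B] (α : A ≃⋆ₐ[ℂ] A)
    (ι : A →⋆ₐ[ℂ] B) (u : B) : Prop where
  injective : Function.Injective ι
  unitary : u ∈ unitary B
  covariant : ∀ a : A, u * ι a * star u = ι (α a)
  generates : (StarAlgebra.adjoin ℂ (Set.range (ι : A → B) ∪ {u})).topologicalClosure = ⊤
  gauge : ∀ z : ℂ, ‖z‖ = 1 → ∃ γ : B →⋆ₐ[ℂ] B, (∀ a : A, γ (ι a) = ι a) ∧ γ u = z • u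

/-- If `A` is purely infinite, `α` has finite Rokhlin dimension and the closed ideals of
`B = C*(Z, A, α)` are totally ordered by inclusion (in particular if `B` is simple), then `B` is
purely infinite. -/
theorem result :
    ∀ (A : Type) [CStarAlgebra A] (α : A ≃⋆ₐ[ℂ] A), PurelyInfinite A → FiniteRokhlin α →
      ∀ (B : Type) [CStarAlgebra B] (ι : A →⋆ₐ[ℂ] B) (u : B), IsCrossedProduct α ι u →
        (∀ I J : TwoSidedIdeal B, IsClosed (I : Set B) → IsClosed (J : Set B) → I ≤ J ∨ J ≤ I) →
          PurelyInfinite B := by
  intro A _ α hA hα B _ ι u hB hS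
  exact Pool.Agent.H898P.chain_pi hA ι ⟨u, hB.unitary⟩ α hB.covariant hα hB.generates
    hB.gauge hS

end Pool.Agent.Results.MP_9b5ea5_an.TotallyOrderedIdeals
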